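import Pool.Agent.H159R3.NV.Final

/-!
From entire curves to torus curves.
-/

set_option autoImplicit false

namespace Pool.Agent.H159R3.Toric

open Filter Metric Set Topology Pool.Agent.H159R3.NV

/-- entire functions have primitives -/
theorem primitive (f : ℂ → ℂ) (hf : Differentiable ℂ f) :
    ∃ g : ℂ → ℂ, ∀ z, HasDerivAt g (f z) z := by
  refine ⟨fun w => Complex.wedgeIntegral 0 w f, fun z => ?_⟩
  have h1 : Complex.IsConservativeOn f (ball (0 : ℂ) (‖z‖ + 1)) :=
    hf.differentiableOn.isConservativeOn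
  exact h1.hasDerivAt_wedgeIntegral (z := z) hf.continuous.continuousOn
    (by rw [mem_ball, dist_zero_right]; linarith)

/-- zero-free entire functions have `N`-th roots -/
theorem root (g : ℂ → ℂ) (hg : Differentiable ℂ g) (h0 : ∀ z, g z ≠ 0) {N : ℕ} (hN : 0 < N) :
    ∃ r : ℂ → ℂ, Differentiable ℂ r ∧ ∀ z, r z ^ N = g z := by
  have hdg : Differentiable ℂ (deriv g) := (hg.contDiff (n := 2)).differentiable_deriv_two
  obtain ⟨h, hh⟩ := primitive (fun z => deriv g z / g z) (hdg.div hg h0)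
  have hhd : Differentiable ℂ h := fun z => (hh z).differentiableAt
  have hder : ∀ z, HasDerivAt (fun z => g z * Complex.exp (-h z)) 0 z := by
    intro z
    have h1 : HasDerivAt (fun z => Complex.exp (-h z)) (Complex.exp (-h z) * -(deriv g z / g z)) z :=
      (hh z).neg.cexp
    have h2 := ((hg z).hasDerivAt).mul h1
    have e : deriv g z * Complex.exp (-h z) + g z * (Complex.exp (-h z) * -(deriv g z / g z)) = 0 := by
      have := h0 z
      field_simp
      ring
    rw [e] at h2
    exact h2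
  have hconst : ∀ z, g z * Complex.exp (-h z) = g 0 * Complex.exp (-h 0) := by
    intro z
    exact is_const_of_deriv_eq_zero (fun z => (hder z).differentiableAt)
      (fun z => (hder z).deriv) z 0
  obtain ⟨c, hc⟩ := IsAlgClosed.exists_pow_nat_eq (g 0 * Complex.exp (-h 0)) hN
  refine ⟨fun z => c * Complex.exp (h z / N), (hhd.div_const _).cexp.const_mul c, ?_⟩
  intro z
  have hN0 : (N : ℂ) ≠ 0 := by exact_mod_cast hN.ne'
  rw [mul_pow, hc, ← Complex.exp_nat_mul, ← hconst z, mul_assoc, ← Complex.exp_add]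
  have : -h z + N * (h z / N) = 0 := by field_simp; ring
  rw [this, Complex.exp_zero, mul_one]

theorem class_sums {N : ℕ} (hN : 0 < N) {ι A : Type} [DecidableEq ι] [DecidableEq A]
    (h : ι → ℂ → ℂ) (hd : ∀ i, Differentiable ℂ (h i)) (φ : ι → A) :
    ∀ (S : Finset ι), (S.card - 1) ^ 2 ≤ N →
      (∀ i ∈ S, ∀ j ∈ S, (∃ z, h i z ≠ 0) → (∃ z, h j z ≠ 0) →
        (∃ c : ℂ, ∀ z, h i z = c * h j z) → φ i = φ j) →
      ∀ c : ι → ℂ, (∀ z, ∑ i ∈ S, c i * h i z ^ N = 0) →
        ∀ v z, ∑ i ∈ S.filter (fun i => φ i = v), c i * h i z ^ N = 0 := by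
  intro S
  induction S using Finset.strongInduction with
  | H S ih =>
    intro hS hφ c hc v z
    by_cases hz : ∃ i ∈ S, ∀ z, h i z = 0
    · -- a vanishing function
      obtain ⟨i, hi, hi0⟩ := hz
      have hcard : ((S.erase i).card - 1) ^ 2 ≤ N :=
        (Nat.pow_le_pow_left (by
          have := Finset.card_le_card (Finset.erase_subset i S); omega) 2).trans hS
      have h1 := ih (S.erase i) (Finset.erase_ssubset hi) hcard
        (fun j hj k hk => hφ j (Finset.mem_of_mem_erase hj) k (Finset.mem_of_mem_erase hk)) c (by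
          intro w
          have h2 := hc w
          rw [← Finset.add_sum_erase S _ hi, hi0 w, zero_pow hN.ne', mul_zero, zero_add] at h2
          exact h2) v z
      rw [Finset.filter_erase] at h1
      by_cases hiv : i ∈ S.filter (fun i => φ i = v)
      · rw [← Finset.add_sum_erase _ _ hiv, hi0 z, zero_pow hN.ne', mul_zero, zero_add]
        exact h1
      · rw [Finset.erase_eq_of_notMem hiv] at h1
        exact h1
    push Not at hz
    by_cases hp : ∃ i ∈ S, ∃ j ∈ S, i ≠ j ∧ ∃ a : ℂ, ∀ z, h i z = a * h j z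
    · -- merge two proportional functions
      obtain ⟨i, hi, j, hj, hij, a, ha⟩ := hp
      have hφij : φ i = φ j := hφ i hi j hj (hz i hi) (hz j hj) ⟨a, ha⟩
      have hcard : ((S.erase i).card - 1) ^ 2 ≤ N :=
        (Nat.pow_le_pow_left (by
          have := Finset.card_le_card (Finset.erase_subset i S); omega) 2).trans hS
      let c' : ι → ℂ := Function.update c j (c j + c i * a ^ N)
      have hji : j ∈ S.erase i := Finset.mem_erase.mpr ⟨hij.symm, hj⟩
      have key : ∀ (T : Finset ι), i ∈ T → j ∈ T → ∀ w,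
          ∑ k ∈ T.erase i, c' k * h k w ^ N = ∑ k ∈ T, c k * h k w ^ N := by
        intro T hiT hjT w
        have hjT' : j ∈ T.erase i := Finset.mem_erase.mpr ⟨hij.symm, hjT⟩
        rw [← Finset.add_sum_erase T _ hiT, ← Finset.add_sum_erase (T.erase i) _ hjT',
          ← Finset.add_sum_erase (T.erase i) (fun k => c k * h k w ^ N) hjT']
        have e1 : ∑ k ∈ (T.erase i).erase j, c' k * h k w ^ N
            = ∑ k ∈ (T.erase i).erase j, c k * h k w ^ N := by
          refine Finset.sum_congr rfl fun k hk => ?_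
          have hkj : k ≠ j := (Finset.mem_erase.mp hk).1
          simp only [c', Function.update_of_ne hkj]
        rw [e1]
        simp only [c', Function.update_self]
        rw [ha w]
        ring
      have h1 := ih (S.erase i) (Finset.erase_ssubset hi) hcard
        (fun j hj k hk => hφ j (Finset.mem_of_mem_erase hj) k (Finset.mem_of_mem_erase hk)) c' (by
          intro w
          rw [key S hi hj w]
          exact hc w) v z
      rw [Finset.filter_erase] at h1
      by_cases hiv : φ i = v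
      · rw [key _ (Finset.mem_filter.mpr ⟨hi, hiv⟩)
          (Finset.mem_filter.mpr ⟨hj, hφij ▸ hiv⟩) z] at h1
        exact h1
      · rw [Finset.erase_eq_of_notMem (by
          intro hmem; exact hiv (Finset.mem_filter.mp hmem).2)] at h1
        rw [← h1]
        refine Finset.sum_congr rfl fun k hk => ?_
        have hkj : k ≠ j := by
          intro hkj
          apply hiv
          rw [hφij, ← hkj]
          exact (Finset.mem_filter.mp hk).2
        simp only [c', Function.update_of_ne hkj]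
    · -- pairwise non-proportional
      push Not at hp
      have h1 := powers_independent (s := S.card) (N := N) hS h hd S le_rfl
        (fun i hi => hz i hi)
        (fun i hi j hj hij a => by
          by_contra hcon
          push Not at hcon
          obtain ⟨w, hw⟩ := hp i hi j hj hij a
          exact hw (sub_eq_zero.mp (hcon w)))
        c hc
      apply Finset.sum_eq_zero
      intro i hi
      rw [h1 i (Finset.mem_filter.mp hi).1, zero_mul]

theorem exists_b {n : ℕ} (u : Fin n → ℂ) (p : Fin n → ℤ) (hp : ∑ j, (p j : ℂ) * u j ≠ 0) :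
    ∃ b : Fin n → ℤ, (∀ q : Fin n → ℤ, ∑ j, (q j : ℂ) * u j = 0 → ∑ j, q j * b j = 0) ∧
      ∑ j, p j * b j ≠ 0 := by
  have h1 : ∃ ψ : Module.Dual ℚ ℂ, ψ (∑ j, (p j : ℂ) * u j) ≠ 0 := by
    by_contra hcon
    push Not at hcon
    exact hp ((Module.forall_dual_apply_eq_zero_iff ℚ _).mp hcon)
  obtain ⟨ψ, hψ⟩ := h1
  set D : ℕ := ∏ j, (ψ (u j)).den with hD
  have hD0 : (D : ℚ) ≠ 0 := by
    rw [hD]
    exact_mod_cast Finset.prod_ne_zero_iff.mpr fun j _ => (ψ (u j)).den_nz
  have hint : ∀ j, ∃ k : ℤ, (k : ℚ) = D * ψ (u j) := by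
    intro j
    refine ⟨(∏ i ∈ Finset.univ.erase j, ((ψ (u i)).den : ℤ)) * (ψ (u j)).num, ?_⟩
    have e : (D : ℚ) = (ψ (u j)).den * ∏ i ∈ Finset.univ.erase j, ((ψ (u i)).den : ℚ) := by
      rw [hD]
      push_cast
      rw [Finset.mul_prod_erase Finset.univ (fun i => ((ψ (u i)).den : ℚ)) (Finset.mem_univ j)]
    push_cast
    rw [e]
    have e2 : ((ψ (u j)).num : ℚ) = ψ (u j) * (ψ (u j)).den := by
      rw [mul_comm]; exact (Rat.den_mul_eq_num _).symm
    rw [e2]
    ring
  choose b hb using hint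
  have hlin : ∀ q : Fin n → ℤ, ψ (∑ j, (q j : ℂ) * u j) = ∑ j, (q j : ℚ) * ψ (u j) := by
    intro q
    rw [map_sum]
    refine Finset.sum_congr rfl fun j _ => ?_
    have : (q j : ℂ) * u j = (q j : ℚ) • u j := by
      rw [Algebra.smul_def]
      simp
    rw [this, map_smul, smul_eq_mul]
  have hsum : ∀ q : Fin n → ℤ, ((∑ j, q j * b j : ℤ) : ℚ) = D * ψ (∑ j, (q j : ℂ) * u j) := by
    intro q
    rw [hlin]
    push_cast
    rw [Finset.mul_sum]
    refine Finset.sum_congr rfl fun j _ => ?_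
    rw [hb]; ring
  refine ⟨b, ?_, ?_⟩
  · intro q hq
    have h2 := hsum q
    rw [hq, map_zero, mul_zero] at h2
    exact_mod_cast h2
  · intro h0
    have h2 := hsum p
    rw [h0] at h2
    push_cast at h2
    exact mul_ne_zero hD0 hψ h2.symm

/-- the key proposition: the graded pieces of the equations vanish at the base point -/
theorem toric {n : ℕ} (f : Fin n → ℂ → ℂ) (hf : ∀ j, Differentiable ℂ (f j)) (U : Set (Fin n))
    (hU : ∀ j ∈ U, ∀ z, f j z ≠ 0) (z0 : ℂ) (hz0 : ∀ j, (∃ z, f j z ≠ 0) → f j z0 ≠ 0)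
    (b : Fin n → ℤ)
    (hb : ∀ q : Fin n → ℤ, ∑ j, (q j : ℂ) * (deriv (f j) z0 / f j z0) = 0 → ∑ j, q j * b j = 0)
    (F : MvPolynomial (Fin n) ℂ) {N : ℕ} (hN : 0 < N) (hs : (F.support.card - 1) ^ 2 ≤ N)
    (hdiv : ∀ α ∈ F.support, ∀ j, j ∉ U → N ∣ α j)
    (hF : ∀ z, MvPolynomial.eval (fun j => f j z) F = 0) (v : ℤ) :
    ∑ α ∈ F.support.filter (fun α => ∑ j, (α j : ℤ) * b j = v),
      F.coeff α * ∏ j, f j z0 ^ α j = 0 := by
  classical
  -- roots of the zero free coordinates
  have hroot : ∀ j, ∃ r : ℂ → ℂ, Differentiable ℂ r ∧ (j ∈ U → ∀ z, r z ^ N = f j z) := by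
    intro j
    by_cases hj : j ∈ U
    · obtain ⟨r, hr, hr2⟩ := root (f j) (hf j) (hU j hj) hN
      exact ⟨r, hr, fun _ => hr2⟩
    · exact ⟨f j, hf j, fun h => absurd h hj⟩
  choose r hr hrN using hroot
  let h : (Fin n →₀ ℕ) → ℂ → ℂ := fun α z =>
    ∏ j, (if j ∈ U then r j z ^ α j else f j z ^ (α j / N))
  have hd : ∀ α, Differentiable ℂ (h α) := by
    intro α
    apply Differentiable.fun_finset_prod
    intro j _
    by_cases hj : j ∈ U
    · simp only [if_pos hj]; exact (hr j).pow _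
    · simp only [if_neg hj]; exact (hf j).pow _
  have hpow : ∀ α ∈ F.support, ∀ z, h α z ^ N = ∏ j, f j z ^ α j := by
    intro α hα z
    simp only [h]
    rw [← Finset.prod_pow]
    refine Finset.prod_congr rfl fun j _ => ?_
    by_cases hj : j ∈ U
    · rw [if_pos hj, ← pow_mul, mul_comm, pow_mul, hrN j hj z]
    · rw [if_neg hj, ← pow_mul, Nat.div_mul_cancel (hdiv α hα j hj)]
  have hc : ∀ z, ∑ α ∈ F.support, F.coeff α * h α z ^ N = 0 := by
    intro z
    rw [← hF z, MvPolynomial.eval_eq']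
    exact Finset.sum_congr rfl fun α hα => by rw [hpow α hα z]
  have hnz : ∀ α ∈ F.support, (∃ z, h α z ≠ 0) → ∏ j, f j z0 ^ α j ≠ 0 := by
    intro α hα hz
    obtain ⟨z, hz⟩ := hz
    have h1 : ∏ j, f j z ^ α j ≠ 0 := by rw [← hpow α hα z]; exact pow_ne_zero _ hz
    rw [Finset.prod_ne_zero_iff] at h1 ⊢
    intro j hj
    have h2 := h1 j hj
    by_cases hα0 : α j = 0
    · rw [hα0, pow_zero]; exact one_ne_zero
    · apply pow_ne_zero
      apply hz0
      exact ⟨z, fun h0 => h2 (by rw [h0, zero_pow hα0])⟩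
  have hlog : ∀ α ∈ F.support, (∃ z, h α z ≠ 0) →
      logDeriv (fun z => ∏ j, f j z ^ α j) z0 = ∑ j, (α j : ℂ) * (deriv (f j) z0 / f j z0) := by
    intro α hα hz
    have h1 := hnz α hα hz
    rw [Finset.prod_ne_zero_iff] at h1
    rw [logDeriv_prod]
    · refine Finset.sum_congr rfl fun j _ => ?_
      rw [logDeriv_fun_pow (hf j z0)]
      rfl
    · intro j hj
      exact h1 j hj
    · intro j _
      exact ((hf j z0).pow _)
  have hφ : ∀ α ∈ F.support, ∀ β ∈ F.support, (∃ z, h α z ≠ 0) → (∃ z, h β z ≠ 0) →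
      (∃ c : ℂ, ∀ z, h α z = c * h β z) →
      ∑ j, (α j : ℤ) * b j = ∑ j, (β j : ℤ) * b j := by
    intro α hα β hβ ha hb' hcc
    obtain ⟨c, hcc⟩ := hcc
    have hc0 : c ≠ 0 := by
      rintro rfl
      obtain ⟨z, hz⟩ := ha
      exact hz (by rw [hcc z, zero_mul])
    have h1 : (fun z => ∏ j, f j z ^ α j) = fun z => c ^ N * ∏ j, f j z ^ β j := by
      funext z
      rw [← hpow α hα z, ← hpow β hβ z, hcc z, mul_pow]
    have h2 := hlog α hα ha
    rw [h1, logDeriv_const_mul z0 (c ^ N) (pow_ne_zero _ hc0), hlog β hβ hb'] at h2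
    have h3 := hb (fun j => (α j : ℤ) - (β j : ℤ)) (by
      push_cast
      simp only [sub_mul]
      rw [Finset.sum_sub_distrib, ← h2, sub_self])
    simp only [sub_mul] at h3
    rw [Finset.sum_sub_distrib] at h3
    linarith
  have hfin := class_sums hN h hd (fun α => ∑ j, (α j : ℤ) * b j) F.support hs hφ
    (fun α => F.coeff α) hc v z0
  rw [← hfin]
  refine Finset.sum_congr rfl fun α hα => ?_
  rw [hpow α (Finset.mem_filter.mp hα).1 z0]

end Pool.Agent.H159R3.Toric
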