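import Pool.Agent.H159R3.NV.Final

/-!
Relations between `N`-th powers persist under specialisations that respect proportionality.
-/

set_option autoImplicit false

namespace Pool.Agent.H159R3.Toric

open Filter Metric Set Topology Pool.Agent.H159R3.NV

theorem spec_sum {N : ℕ} (hN : 0 < N) {ι : Type} [DecidableEq ι]
    (h : ι → ℂ → ℂ) (hd : ∀ i, Differentiable ℂ (h i)) (x : ι → ℂ)
    (hx0 : ∀ i, (∀ z, h i z = 0) → x i = 0)
    (hx : ∀ i j (a : ℂ), (∀ z, h i z = a * h j z) → x i = a * x j) :
    ∀ (S : Finset ι), (S.card - 1) ^ 2 ≤ N →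
      ∀ c : ι → ℂ, (∀ z, ∑ i ∈ S, c i * h i z ^ N = 0) → ∑ i ∈ S, c i * x i ^ N = 0 := by
  intro S
  induction S using Finset.strongInduction with
  | H S ih =>
    intro hS c hc
    have hcard : ∀ i, ((S.erase i).card - 1) ^ 2 ≤ N := fun i =>
        (Nat.pow_le_pow_left (by
          have := Finset.card_le_card (Finset.erase_subset i S); omega) 2).trans hS
    by_cases hz : ∃ i ∈ S, ∀ z, h i z = 0
    · obtain ⟨i, hi, hi0⟩ := hz
      have h1 := ih (S.erase i) (Finset.erase_ssubset hi) (hcard i) c (by
          intro w
          have h2 := hc w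
          rw [← Finset.add_sum_erase S _ hi, hi0 w, zero_pow hN.ne', mul_zero, zero_add] at h2
          exact h2)
      rw [← Finset.add_sum_erase S _ hi, hx0 i hi0, zero_pow hN.ne', mul_zero, zero_add]
      exact h1
    push Not at hz
    by_cases hp : ∃ i ∈ S, ∃ j ∈ S, i ≠ j ∧ ∃ a : ℂ, ∀ z, h i z = a * h j z
    · obtain ⟨i, hi, j, hj, hij, a, ha⟩ := hp
      let c' : ι → ℂ := Function.update c j (c j + c i * a ^ N)
      have hjS : j ∈ S.erase i := Finset.mem_erase.mpr ⟨hij.symm, hj⟩
      have key : ∀ (y : ι → ℂ), y i = a * y j →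
          ∑ k ∈ S.erase i, c' k * y k ^ N = ∑ k ∈ S, c k * y k ^ N := by
        intro y hy
        rw [← Finset.add_sum_erase S _ hi, ← Finset.add_sum_erase (S.erase i) _ hjS,
          ← Finset.add_sum_erase (S.erase i) (fun k => c k * y k ^ N) hjS]
        have e1 : ∑ k ∈ (S.erase i).erase j, c' k * y k ^ N
            = ∑ k ∈ (S.erase i).erase j, c k * y k ^ N := by
          refine Finset.sum_congr rfl fun k hk => ?_
          have hkj : k ≠ j := (Finset.mem_erase.mp hk).1
          simp only [c', Function.update_of_ne hkj]
        rw [e1]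
        simp only [c', Function.update_self]
        rw [hy]
        ring
      have h1 := ih (S.erase i) (Finset.erase_ssubset hi) (hcard i) c' (by
          intro w
          rw [key (fun k => h k w) (ha w)]
          exact hc w)
      rw [key x (hx i j a ha)] at h1
      exact h1
    · push Not at hp
      have h1 := powers_independent (s := S.card) (N := N) hS h hd S le_rfl
        (fun i hi => hz i hi)
        (fun i hi j hj hij a => by
          by_contra hcon
          push Not at hcon
          obtain ⟨w, hw⟩ := hp i hi j hj hij a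
          exact hw (sub_eq_zero.mp (hcon w)))
        c hc
      apply Finset.sum_eq_zero
      intro i hi
      rw [h1 i hi, zero_mul]

end Pool.Agent.H159R3.Toric
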